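import Mathlib

set_option autoImplicit false
set_option linter.style.longLine false

/-!
# Tables of four permutation cubes of order six, dimension three, with bijective differences

The value of the `c`-th cube at the cell with index `i = 36 * p + 6 * q + r` is the `i`-th base-8
digit of `tab c`.  The three differences (modulo 6) of the cubes `1, 2, 3` with the cube `0` are
jointly bijective on the `216` cells.  All checks are run by the kernel on natural numbers.
-/

namespace Pool.Agent.TH7.Cyc

/-- the `i`-th base 8 digit, reduced modulo 6 (the reduction changes nothing) -/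
def look (t i : ℕ) : ℕ := (t >>> (3 * i)) % 8 % 6

/-- the `i`-th base 256 digit -/
def look' (t i : ℕ) : ℕ := (t >>> (8 * i)) % 256

/-- union of the six values as a bit mask -/
def mask (f : ℕ → ℕ) : ℕ :=
  2 ^ f 0 ||| 2 ^ f 1 ||| 2 ^ f 2 ||| 2 ^ f 3 ||| 2 ^ f 4 ||| 2 ^ f 5

theorem mask_surj {f : ℕ → ℕ} (h : mask f = 63) : ∀ k, k < 6 → ∃ t, t < 6 ∧ f t = k := by
  intro k hk
  have h1 : (mask f).testBit k = true := by
    rw [h]
    interval_cases k <;> decide
  simp only [mask, Nat.testBit_or, Nat.testBit_two_pow, Bool.or_eq_true, decide_eq_true_eq] at h1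
  rcases h1 with ((((h1 | h1) | h1) | h1) | h1) | h1
  · exact ⟨0, by norm_num, h1⟩
  · exact ⟨1, by norm_num, h1⟩
  · exact ⟨2, by norm_num, h1⟩
  · exact ⟨3, by norm_num, h1⟩
  · exact ⟨4, by norm_num, h1⟩
  · exact ⟨5, by norm_num, h1⟩

/-- tables of the four cubes -/
def tab : ℕ → ℕ
  | 0 => 0xa4350b52809d85ca425602e029d9486816a5213b139486ac06c0535290e82d48427427292d581d80a6a522505ab084c84e505ab13b010d4a54a0b7610a909c80b54a76021a95a9414ec225213b016814ec
  | 1 => 0x2e0544a9954b81912a8152ea6440a970d8d0702a50363a5c0a340d85d0ab40c0a174cad074285032ba142e26452e850589950ba19162503a58362a540e260d0e950d89874a81112b81d2ab4442a0744ad1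
  | 2 => 0x6a50484ec05a96c213941693b0821a96c053948693b016a52014ec9484dab014e52016ac21396c05a4ec2016a5213b2505ab084da941053b2521ab014da9484ec0486a5b016939486ac0484e505ab25213
  | _ => 0x1632a32a871114a15c4688e8711a1c4458ca8caa1c445285711a2371114a15c4688e87111632a32a88caa1c445285711a23a1c4458ca4688e87111632a32a871114a15c285711a23a1c4458ca8caa1c445

/-- table of the inverse of the map of the three differences -/
def inv : ℕ :=
  0x1d3c6844585535c65622857aa48094915978925ec1b6712a1c1995b408bc253ed18a1a9aa5cea64c998c81d5a9312d510aac21c809320d6d8db1bd395d2c696e6a10c915457549cd9dc216ca0003b57404a23328522e6063012664066f883dd49c9f6186b28ecfc47938a066537c4e186b3a2f8357b7d723ae54a776b3b8933f3b5f8fbf0bd617401290779bcb471b7b4b709672aaad8746a850b9cc1ed20e11abd00cb04130c3824a4d0f345a367d6c27be48141f24209e13bad32b05897fa35c024f425b8465c5bb07378baf7e97c09862436773c7a129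

/-- the cubes -/
def kv (c p q r : ℕ) : ℕ := look (tab c) (36 * p + 6 * q + r)

/-- the difference of the cube `c` and the cube `0`, modulo 6 -/
def df (c p q r : ℕ) : ℕ := (6 - kv 0 p q r + kv c p q r) % 6

/-- all lines are permutations -/
def linesOk : Bool :=
  (List.range 4).all fun c => (List.range 6).all fun p => (List.range 6).all fun q =>
    (mask (fun t => kv c t p q) == 63 && mask (fun t => kv c p t q) == 63) &&
      mask (fun t => kv c p q t) == 63

/-- the three differences determine the cell -/
def invOk : Bool :=
  (List.range 6).all fun p => (List.range 6).all fun q => (List.range 6).all fun r =>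
    look' inv (36 * df 1 p q r + 6 * df 2 p q r + df 3 p q r) == 36 * p + 6 * q + r

set_option maxRecDepth 100000 in
theorem linesOk_true : linesOk = true := by decide +kernel

set_option maxRecDepth 100000 in
theorem invOk_true : invOk = true := by decide +kernel

end Pool.Agent.TH7.Cyc
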