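import Pool.Agent.TH302.Cubes.Odd
import Pool.Agent.TH7.Cyc.Tab

set_option autoImplicit false

/-!
# Cyclic variational sets of order six
-/

namespace Pool.Agent.TH7.Cyc

open Function Pool.Agent.H430R2.PermCubes Pool.Agent.TH302.Cubes

variable {A : Type} [AddCommGroup A]

/-- shifting the input number `i₀` shifts all outputs by the same amount -/
def Shift {I O : Type} [DecidableEq I] (F : (I → A) → O → A) (i₀ : I) : Prop :=
  ∀ (x : I → A) (u : A) (o : O), F (update x i₀ (x i₀ + u)) o = F x o + u

theorem upd_some {I : Type} [DecidableEq I] (x : Option (Option I) → A) (i : I) (t : A) :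
    (fun j => update x (some (some i)) t (some (some j))) =
      update (fun j => x (some (some j))) i t := by
  funext j
  by_cases hj : j = i
  · subst hj; simp
  · rw [update_of_ne hj, update_of_ne (by simpa using hj)]

theorem shift_base (L : Fin 3 → A → A → A) : Shift (baseF L) (0 : Fin 5) := by
  intro x u o
  simp only [baseF, update_self]
  rw [update_of_ne (by decide), update_of_ne (by decide), update_of_ne (by decide),
    update_of_ne (by decide)]
  abel

theorem shift_step {L : Fin 3 → A → A → A} {I O : Type} [DecidableEq I] [DecidableEq O]
    {F : (I → A) → O → A} {a b c : O} {i₀ : I} (h : Shift F i₀) :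
    Shift (stepF L F a b c) (some (some i₀)) := by
  intro x u o
  have h' : ∀ o', F (fun j => update x (some (some i₀)) (x (some (some i₀)) + u)
      (some (some j))) o' = F (fun j => x (some (some j))) o' + u := by
    intro o'
    rw [upd_some]
    exact h (fun j => x (some (some j))) u o'
  match o with
  | none =>
    simp only [stepF, h']
    rw [update_of_ne (by simp), update_of_ne (by simp)]
    abel
  | some none =>
    simp only [stepF, h']
    rw [update_of_ne (by simp), update_of_ne (by simp)]
    abel
  | some (some o) =>
    simp only [stepF, h']
    rw [update_of_ne (by simp), update_of_ne (by simp)]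
    abel

/-- A good family with a shift exists in every odd dimension at least five. -/
theorem exists_good_shift {L : Fin 3 → A → A → A} (hL : IsTriple L) (r : ℕ) :
    ∃ (I O : Type) (_ : DecidableEq I) (_ : Fintype I) (_ : Fintype O) (_ : DecidableEq O)
      (F : (I → A) → O → A) (s : O → ℤ) (a b c : O) (i₀ : I), Good I O F s ∧ Shift F i₀ ∧
      a ≠ b ∧ c ≠ a ∧ c ≠ b ∧
      s a = 1 ∧ s b = -1 ∧ Fintype.card I = 2 * r + 5 ∧ Fintype.card O = 2 * r + 6 := by
  induction r with
  | zero =>
    exact ⟨Fin 5, Fin 6, inferInstance, inferInstance, inferInstance, inferInstance, baseF L,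
      baseS, 0, 1, 2, 0, good_base hL, shift_base L, by decide, by decide, by decide, rfl, rfl,
      by simp, by simp⟩
  | succ r ih =>
    obtain ⟨I, O, _, _, _, _, F, s, a, b, c, i₀, h, hs, hab, hca, hcb, ha, hb, hI, hO⟩ := ih
    refine ⟨Option (Option I), Option (Option O), inferInstance, inferInstance, inferInstance,
      inferInstance, stepF L F a b c, stepS s, some (some a), some (some b), some (some c),
      some (some i₀),
      h.step hL hab hca hcb ha hb, shift_step hs, by simpa using hab, by simpa using hca,
      by simpa using hcb, ha, hb, ?_, ?_⟩
    · simp only [Fintype.card_option, hI]; ring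
    · simp only [Fintype.card_option, hO]; ring

/-- jointly injective families of cubes, without a relation -/
structure Fam (I O : Type) [DecidableEq I] (F : (I → A) → O → A) : Prop where
  line : ∀ (o : O) (i : I) (x : I → A), Bijective (fun t => F (update x i t) o)
  inj : Injective F

/-- the family of the recursion step without a relation -/
def stepE {I O : Type} (L : Fin 3 → A → A → A) (F : (I → A) → O → A) (c : O)
    (x : Option (Option I) → A) : Option (Option O) → A
  | none => F (fun i => x (some (some i))) c + L 2 (x none) (x (some none))
  | some none => F (fun i => x (some (some i))) c + L 1 (x none) (x (some none))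
  | some (some o) => F (fun i => x (some (some i))) o + L 0 (x none) (x (some none))

theorem Fam.step {L : Fin 3 → A → A → A} (hL : IsTriple L) {I O : Type} [DecidableEq I]
    {F : (I → A) → O → A} (h : Fam I O F) (c : O) :
    Fam (Option (Option I)) (Option (Option O)) (stepE L F c) := by
  refine ⟨?_, ?_⟩
  · intro o i x
    match o, i with
    | none, none => simpa [stepE] using bij_add_const (hL.col 2 _) _
    | none, some none => simpa [stepE] using bij_add_const (hL.row 2 _) _
    | none, some (some i) =>
      simpa [stepE, upd_some] using bij_add_const' (h.line c i (fun j => x (some (some j)))) _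
    | some none, none => simpa [stepE] using bij_add_const (hL.col 1 _) _
    | some none, some none => simpa [stepE] using bij_add_const (hL.row 1 _) _
    | some none, some (some i) =>
      simpa [stepE, upd_some] using bij_add_const' (h.line c i (fun j => x (some (some j)))) _
    | some (some o), none => simpa [stepE] using bij_add_const (hL.col 0 _) _
    | some (some o), some none => simpa [stepE] using bij_add_const (hL.row 0 _) _
    | some (some o), some (some i) =>
      simpa [stepE, upd_some] using bij_add_const' (h.line o i (fun j => x (some (some j)))) _
  · intro x y hxy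
    have h0 := congrFun hxy (some (some c))
    have h1 := congrFun hxy (some none)
    have h2 := congrFun hxy none
    simp only [stepE] at h0 h1 h2
    obtain ⟨hp, hq⟩ := hL.inj (x none) (x (some none)) (y none) (y (some none))
      (by
        have := congrArg₂ (· - ·) h1 h0
        simpa [add_sub_add_left_eq_sub] using this)
      (by
        have := congrArg₂ (· - ·) h2 h0
        simpa [add_sub_add_left_eq_sub] using this)
    have hF : F (fun i => x (some (some i))) = F (fun i => y (some (some i))) := by
      funext o
      have := congrFun hxy (some (some o))
      simp only [stepE, hp, hq] at this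
      exact add_right_cancel this
    have hx := h.inj hF
    funext i
    match i with
    | none => exact hp
    | some none => exact hq
    | some (some i) => exact congrFun hx i

theorem shift_stepE {L : Fin 3 → A → A → A} {I O : Type} [DecidableEq I]
    {F : (I → A) → O → A} {c : O} {i₀ : I} (h : Shift F i₀) :
    Shift (stepE L F c) (some (some i₀)) := by
  intro x u o
  have h' : ∀ o', F (fun j => update x (some (some i₀)) (x (some (some i₀)) + u)
      (some (some j))) o' = F (fun j => x (some (some j))) o' + u := by
    intro o'
    rw [upd_some]
    exact h (fun j => x (some (some j))) u o'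
  match o with
  | none =>
    simp only [stepE, h']
    rw [update_of_ne (by simp), update_of_ne (by simp)]
    abel
  | some none =>
    simp only [stepE, h']
    rw [update_of_ne (by simp), update_of_ne (by simp)]
    abel
  | some (some o) =>
    simp only [stepE, h']
    rw [update_of_ne (by simp), update_of_ne (by simp)]
    abel

/-- four cubes of dimension three whose three differences are jointly injective -/
structure IsQuad (K : Fin 4 → A → A → A → A) : Prop where
  l1 : ∀ c q r, Bijective (fun t => K c t q r)
  l2 : ∀ c p r, Bijective (fun t => K c p t r)
  l3 : ∀ c p q, Bijective (fun t => K c p q t)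
  inj : ∀ p q r p' q' r', K 1 p q r - K 0 p q r = K 1 p' q' r' - K 0 p' q' r' →
    K 2 p q r - K 0 p q r = K 2 p' q' r' - K 0 p' q' r' →
    K 3 p q r - K 0 p q r = K 3 p' q' r' - K 0 p' q' r' → p = p' ∧ q = q' ∧ r = r'

/-- the base family of dimension four -/
def quadF (K : Fin 4 → A → A → A → A) (x : Fin 4 → A) (o : Fin 4) : A :=
  x 0 + K o (x 1) (x 2) (x 3)

theorem fam_quad {K : Fin 4 → A → A → A → A} (hK : IsQuad K) :
    Fam (Fin 4) (Fin 4) (quadF K) := by
  refine ⟨?_, ?_⟩
  · intro o i x
    fin_cases i
    · simpa [quadF] using (Equiv.addRight (K o (x 1) (x 2) (x 3))).bijective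
    · simpa [quadF] using bij_add_const (hK.l1 o (x 2) (x 3)) (x 0)
    · simpa [quadF] using bij_add_const (hK.l2 o (x 1) (x 3)) (x 0)
    · simpa [quadF] using bij_add_const (hK.l3 o (x 1) (x 2)) (x 0)
  · intro x y hxy
    have h0 := congrFun hxy 0
    have h1 := congrFun hxy 1
    have h2 := congrFun hxy 2
    have h3 := congrFun hxy 3
    simp only [quadF] at h0 h1 h2 h3
    obtain ⟨hp, hq, hr⟩ := hK.inj (x 1) (x 2) (x 3) (y 1) (y 2) (y 3)
      (by
        have := congrArg₂ (· - ·) h1 h0
        simpa [add_sub_add_left_eq_sub] using this)
      (by
        have := congrArg₂ (· - ·) h2 h0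
        simpa [add_sub_add_left_eq_sub] using this)
      (by
        have := congrArg₂ (· - ·) h3 h0
        simpa [add_sub_add_left_eq_sub] using this)
    rw [hp, hq, hr] at h0
    have h00 := add_right_cancel h0
    funext i
    fin_cases i
    · exact h00
    · exact hp
    · exact hq
    · exact hr

theorem shift_quad (K : Fin 4 → A → A → A → A) : Shift (quadF K) (0 : Fin 4) := by
  intro x u o
  simp only [quadF, update_self]
  rw [update_of_ne (by decide), update_of_ne (by decide), update_of_ne (by decide)]
  abel

/-- jointly injective families with a shift exist in every even dimension at least four -/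
theorem exists_fam_shift {L : Fin 3 → A → A → A} (hL : IsTriple L)
    {K : Fin 4 → A → A → A → A} (hK : IsQuad K) (r : ℕ) :
    ∃ (I O : Type) (_ : DecidableEq I) (_ : Fintype I) (_ : Fintype O) (_ : DecidableEq O)
      (F : (I → A) → O → A) (_ : O) (i₀ : I), Fam I O F ∧ Shift F i₀ ∧
      Fintype.card I = 2 * r + 4 ∧ Fintype.card O = 2 * r + 4 := by
  induction r with
  | zero =>
    exact ⟨Fin 4, Fin 4, inferInstance, inferInstance, inferInstance, inferInstance, quadF K,
      0, 0, fam_quad hK, shift_quad K, by simp, by simp⟩
  | succ r ih =>
    obtain ⟨I, O, _, _, _, _, F, c, i₀, h, hs, hI, hO⟩ := ih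
    refine ⟨Option (Option I), Option (Option O), inferInstance, inferInstance, inferInstance,
      inferInstance, stepE L F c, none, some (some i₀), h.step hL c, shift_stepE hs, ?_, ?_⟩
    · simp only [Fintype.card_option, hI]; ring
    · simp only [Fintype.card_option, hO]; ring

end Pool.Agent.TH7.Cyc
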