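import Pool.Agent.H430R2.PermCubes.Defs

set_option autoImplicit false

/-!
# A parity obstruction for variational sets of `m + 1` cubes, `m` even, order `2 mod 4`
-/

namespace Pool.Agent.TH7.Cyc

open Function Finset Pool.Agent.H430R2.PermCubes

variable {m n : ℕ}

/-- the number of cells whose symbols lie in the classes prescribed by `a` -/
def cnt (C : Fin (m + 1) → (Fin m → Fin n) → Fin n) (H : Fin (m + 1) → Finset (Fin n))
    (a : Fin (m + 1) → Bool) : ℕ :=
  (univ.filter fun x : Fin m → Fin n => ∀ i, decide (C i x ∈ H i) = a i).card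

/-- the cells whose symbols in all the cubes but the one number `i` lie in the prescribed classes -/
theorem card_all_but {C : Fin (m + 1) → (Fin m → Fin n) → Fin n}
    (h : IsVariationalSet m n (m + 1) C) {k : ℕ} (H : Fin (m + 1) → Finset (Fin n))
    (hH : ∀ i, (H i).card = k) (hn : n = 2 * k) (a : Fin (m + 1) → Bool) (i : Fin (m + 1)) :
    (univ.filter fun x : Fin m → Fin n => ∀ j, j ≠ i → decide (C j x ∈ H j) = a j).card =
      k ^ m := by
  classical
  set e : Fin m → Fin (m + 1) := i.succAbove with he
  have hb := h.2 e i.succAbove_right_injective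
  set E : (Fin m → Fin n) ≃ (Fin m → Fin n) := Equiv.ofBijective _ hb with hE
  set T : Fin m → Finset (Fin n) := fun j => univ.filter fun s => decide (s ∈ H (e j)) = a (e j)
    with hT
  have hTc : ∀ j, (T j).card = k := by
    intro j
    have h1 : ((univ : Finset (Fin n)).filter fun s => s ∈ H (e j)).card = k := by
      rw [Finset.filter_univ_mem, hH]
    have h2 : ((univ : Finset (Fin n)).filter fun s => s ∈ H (e j)).card +
        ((univ : Finset (Fin n)).filter fun s => ¬ s ∈ H (e j)).card = n := by
      rw [Finset.card_filter_add_card_filter_not]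
      simp
    cases hc : a (e j) with
    | true =>
      have : T j = univ.filter fun s => s ∈ H (e j) := by
        ext s; simp [hT, hc]
      rw [this, h1]
    | false =>
      have : T j = univ.filter fun s => ¬ s ∈ H (e j) := by
        ext s; simp [hT, hc]
      rw [this]
      omega
  have hcard : (Fintype.piFinset T).card = k ^ m := by
    rw [Fintype.card_piFinset, Finset.prod_congr rfl (fun j _ => hTc j)]
    simp
  rw [← hcard]
  refine Finset.card_bij' (fun x _ => E x) (fun y _ => E.symm y) ?_ ?_ ?_ ?_
  · intro x hx
    rw [Fintype.mem_piFinset]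
    intro j
    have := (Finset.mem_filter.1 hx).2 (e j) (Fin.succAbove_ne i j)
    simp only [hT, Finset.mem_filter, Finset.mem_univ, true_and]
    exact this
  · intro y hy
    rw [Finset.mem_filter]
    refine ⟨Finset.mem_univ _, fun j hj => ?_⟩
    obtain ⟨j', rfl⟩ := Fin.exists_succAbove_eq hj
    have h1 := (Fintype.mem_piFinset.1 hy) j'
    simp only [hT, Finset.mem_filter, Finset.mem_univ, true_and] at h1
    have h2 : C (e j') (E.symm y) = y j' := by
      have := congrFun (E.apply_symm_apply y) j'
      exact this
    rw [← he, h2]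
    exact h1
  · intro x _; simp
  · intro y _; simp

theorem cnt_flip {C : Fin (m + 1) → (Fin m → Fin n) → Fin n}
    (h : IsVariationalSet m n (m + 1) C) {k : ℕ} (H : Fin (m + 1) → Finset (Fin n))
    (hH : ∀ i, (H i).card = k) (hn : n = 2 * k) (a : Fin (m + 1) → Bool) (i : Fin (m + 1)) :
    cnt C H (update a i true) + cnt C H (update a i false) = k ^ m := by
  classical
  rw [← card_all_but h H hH hn a i, cnt, cnt]
  rw [← Finset.card_union_of_disjoint]
  · congr 1
    ext x
    simp only [Finset.mem_union, Finset.mem_filter, Finset.mem_univ, true_and]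
    constructor
    · rintro (h1 | h1) j hj
      · have := h1 j
        rwa [update_of_ne hj] at this
      · have := h1 j
        rwa [update_of_ne hj] at this
    · intro h1
      cases hc : decide (C i x ∈ H i) with
      | true =>
        left
        intro j
        by_cases hj : j = i
        · subst hj; rw [update_self]; exact hc
        · rw [update_of_ne hj]; exact h1 j hj
      | false =>
        right
        intro j
        by_cases hj : j = i
        · subst hj; rw [update_self]; exact hc
        · rw [update_of_ne hj]; exact h1 j hj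
  · rw [Finset.disjoint_left]
    intro x h1 h2
    have e1 := (Finset.mem_filter.1 h1).2 i
    have e2 := (Finset.mem_filter.1 h2).2 i
    rw [update_self] at e1 e2
    rw [e1] at e2
    exact absurd e2 (by decide)

/-- the first `j` bits are `false`, the others `true` -/
def stair (m j : ℕ) : Fin (m + 1) → Bool := fun i => decide (j ≤ (i : ℕ))

theorem stair_succ {j : ℕ} (hj : j < m + 1) :
    update (stair m j) ⟨j, hj⟩ false = stair m (j + 1) ∧
      update (stair m j) ⟨j, hj⟩ true = stair m j := by
  constructor
  · funext i
    by_cases hi : i = ⟨j, hj⟩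
    · subst hi; simp [stair]
    · rw [update_of_ne hi]
      have : (i : ℕ) ≠ j := fun h => hi (Fin.ext h)
      simp only [stair, decide_eq_decide]
      omega
  · funext i
    by_cases hi : i = ⟨j, hj⟩
    · subst hi; simp [stair]
    · rw [update_of_ne hi]

theorem cnt_stair {C : Fin (m + 1) → (Fin m → Fin n) → Fin n}
    (h : IsVariationalSet m n (m + 1) C) {k : ℕ} (H : Fin (m + 1) → Finset (Fin n))
    (hH : ∀ i, (H i).card = k) (hn : n = 2 * k) (j : ℕ) (hj : j ≤ m + 1) :
    (j % 2 = 0 → cnt C H (stair m j) = cnt C H (stair m 0)) ∧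
      (j % 2 = 1 → cnt C H (stair m j) + cnt C H (stair m 0) = k ^ m) := by
  induction j with
  | zero => simp
  | succ j ih =>
    obtain ⟨h1, h2⟩ := ih (by omega)
    have hf := cnt_flip h H hH hn (stair m j) ⟨j, by omega⟩
    obtain ⟨e1, e2⟩ := stair_succ (m := m) (j := j) (by omega)
    rw [e1, e2] at hf
    constructor
    · intro hj2
      have := h2 (by omega)
      omega
    · intro hj2
      have := h1 (by omega)
      omega

/-- **Parity obstruction.** -/
theorem no_flip {C : Fin (m + 1) → (Fin m → Fin n) → Fin n} (hm : Even m) (hn : n % 4 = 2)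
    (h : IsVariationalSet m n (m + 1) C) (H : Fin (m + 1) → Finset (Fin n))
    (hH : ∀ i, 2 * (H i).card = n) (g : Equiv.Perm (Fin m → Fin n))
    (hg : ∀ i x, C i (g x) ∈ H i ↔ C i x ∉ H i) : False := by
  classical
  obtain ⟨k, hk⟩ : ∃ k, n = 2 * k := ⟨n / 2, by omega⟩
  have hk2 : k % 2 = 1 := by omega
  have hH' : ∀ i, (H i).card = k := fun i => by have := hH i; omega
  obtain ⟨-, h2⟩ := cnt_stair h H hH' hk (m + 1) le_rfl
  have h3 := h2 (by obtain ⟨r, hr⟩ := hm; omega)
  have h4 : cnt C H (stair m (m + 1)) = cnt C H (stair m 0) := by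
    symm
    refine Finset.card_bij' (fun x _ => g x) (fun y _ => g.symm y) ?_ ?_ ?_ ?_
    · intro x hx
      rw [Finset.mem_filter] at hx ⊢
      refine ⟨Finset.mem_univ _, fun i => ?_⟩
      have h5 := hx.2 i
      have h6 : C i x ∈ H i := by simpa [stair] using h5
      have h7 : ¬ C i (g x) ∈ H i := by
        rw [hg]; simpa using h6
      have h8 : ¬ (m + 1 ≤ (i : ℕ)) := by have := i.2; omega
      simp [stair, h7, h8]
    · intro y hy
      rw [Finset.mem_filter] at hy ⊢
      refine ⟨Finset.mem_univ _, fun i => ?_⟩
      have h5 := hy.2 i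
      have h8 : ¬ (m + 1 ≤ (i : ℕ)) := by have := i.2; omega
      have h6 : ¬ C i y ∈ H i := by simpa [stair, h8] using h5
      have h7 : C i (g.symm y) ∈ H i := by
        by_contra hc
        exact h6 (by have := (hg i (g.symm y)).2 hc; simpa using this)
      simp [stair, h7]
    · intro x _; simp
    · intro y _; simp
  have h5 : k ^ m % 2 = 1 := by
    rw [Nat.pow_mod, hk2]; simp
  omega

end Pool.Agent.TH7.Cyc
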