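import Pool.Agent.TH7.Cyc.Fam
import Pool.Agent.TH7.Cyc.Parity

set_option autoImplicit false

/-!
# Cyclic variational sets
-/

namespace Pool.Agent.TH7.Cyc

open Function Pool.Agent.H430R2.PermCubes Pool.Agent.TH302.Cubes

/-- `C_1, …, C_k` is a cyclic variational set: it is a variational set and some permutation `g` of
the cells raises every symbol of every cube by one modulo `n`. -/
def IsCyclicSet (m n k : ℕ) (C : Fin k → (Fin m → Fin n) → Fin n) : Prop :=
  IsVariationalSet m n k C ∧
    ∃ g : Equiv.Perm (Fin m → Fin n), ∀ (i : Fin k) (x : Fin m → Fin n),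
      (C i (g x) : ℕ) = ((C i x : ℕ) + 1) % n

/-! ### the four cubes -/

theorem look_lt (t i : ℕ) : look t i < 6 := Nat.mod_lt _ (by norm_num)

/-- the four cubes on `Fin 6` -/
def K (c : Fin 4) (p q r : Fin 6) : Fin 6 := ⟨kv c p q r, look_lt _ _⟩

theorem bij_of_mask {f : ℕ → ℕ} (hf : ∀ t, f t < 6) (h : mask f = 63) :
    Bijective (fun t : Fin 6 => (⟨f t, hf t⟩ : Fin 6)) := by
  rw [← Finite.surjective_iff_bijective]
  intro k
  obtain ⟨t, ht, hk⟩ := mask_surj h k k.2
  exact ⟨⟨t, ht⟩, Fin.ext hk⟩

theorem K_df (c : Fin 4) (p q r : Fin 6) : ((K c p q r - K 0 p q r : Fin 6) : ℕ) = df c p q r := by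
  rw [Fin.sub_def]
  rfl

theorem isQuad_K : IsQuad K := by
  have h := linesOk_true
  simp only [linesOk, List.all_eq_true, List.mem_range, Bool.and_eq_true, beq_iff_eq] at h
  refine ⟨?_, ?_, ?_, ?_⟩
  · intro c q r
    exact bij_of_mask (fun _ => look_lt _ _) (h c c.2 q q.2 r r.2).1.1
  · intro c p r
    exact bij_of_mask (fun _ => look_lt _ _) (h c c.2 p p.2 r r.2).1.2
  · intro c p q
    exact bij_of_mask (fun _ => look_lt _ _) (h c c.2 p p.2 q q.2).2
  · intro p q r p' q' r' h1 h2 h3
    have hi := invOk_true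
    simp only [invOk, List.all_eq_true, List.mem_range, beq_iff_eq] at hi
    have e := hi p p.2 q q.2 r r.2
    have e' := hi p' p'.2 q' q'.2 r' r'.2
    have g1 : df 1 p q r = df 1 p' q' r' := by
      have := congrArg Fin.val h1
      rwa [K_df, K_df] at this
    have g2 : df 2 p q r = df 2 p' q' r' := by
      have := congrArg Fin.val h2
      rwa [K_df, K_df] at this
    have g3 : df 3 p q r = df 3 p' q' r' := by
      have := congrArg Fin.val h3
      rwa [K_df, K_df] at this
    rw [g1, g2, g3] at e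
    have := e.symm.trans e'
    have := p.2
    have := q.2
    have := r.2
    have := p'.2
    have := q'.2
    have := r'.2
    exact ⟨Fin.ext (by omega), Fin.ext (by omega), Fin.ext (by omega)⟩

/-! ### from families to variational sets -/

theorem upd_comp {n m : ℕ} {I : Type} [DecidableEq I] (eI : Fin m ≃ I) (x : Fin m → Fin n)
    (i : Fin m) (t : Fin n) : (fun j => update x i t (eI.symm j)) =
      update (fun j => x (eI.symm j)) (eI i) t := by
  funext j
  by_cases hj : j = eI i
  · subst hj; simp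
  · rw [update_of_ne hj, update_of_ne]
    intro h'
    exact hj (by rw [← h']; simp)

theorem var_of_good {n : ℕ} [NeZero n] {I O : Type} [DecidableEq I]
    [Fintype O] [DecidableEq O] {F : (I → Fin n) → O → Fin n} {s : O → ℤ} (h : Good I O F s)
    {m : ℕ} (eI : Fin m ≃ I) (eO : Fin (m + 1) ≃ O) :
    IsVariationalSet m n (m + 1) (fun k x => F (fun i => x (eI.symm i)) (eO k)) := by
  refine ⟨?_, ?_⟩
  · intro k i x
    simp only [upd_comp eI]
    exact h.line _ _ _
  · intro e he
    rw [← Finite.injective_iff_bijective]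
    intro x y hxy
    obtain ⟨k₀, hk₀⟩ : ∃ k₀, ∀ k, k ≠ k₀ → ∃ i, e i = k := by
      have hc : (Finset.univ.image e)ᶜ.card = 1 := by
        rw [Finset.card_compl, Finset.card_image_of_injective _ he]
        simp
      obtain ⟨k₀, hk₀⟩ := Finset.card_eq_one.1 hc
      refine ⟨k₀, fun k hk => ?_⟩
      by_contra hcon
      have : k ∈ (Finset.univ.image e)ᶜ := by
        simpa using hcon
      rw [hk₀, Finset.mem_singleton] at this
      exact hk this
    set X : I → Fin n := fun i => x (eI.symm i) with hX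
    set Y : I → Fin n := fun i => y (eI.symm i) with hY
    have hag : ∀ o, o ≠ eO k₀ → F X o = F Y o := by
      intro o ho
      obtain ⟨i, hi⟩ := hk₀ (eO.symm o) (fun h' => ho (by rw [← h']; simp))
      have := congrFun hxy i
      simpa [hi] using this
    have hsum : ∑ o, s o • (F X o - F Y o) = 0 := by
      simp only [smul_sub, Finset.sum_sub_distrib, h.rel, sub_zero]
    rw [Finset.sum_eq_single (eO k₀) (fun o _ ho => by rw [hag o ho, sub_self, smul_zero])
      (fun h' => absurd (Finset.mem_univ _) h')] at hsum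
    have h0 : F X (eO k₀) = F Y (eO k₀) := by
      rcases h.sgn (eO k₀) with h1 | h1
      · rw [h1, one_smul] at hsum
        exact sub_eq_zero.1 hsum
      · rw [h1, neg_smul, one_smul, neg_eq_zero] at hsum
        exact sub_eq_zero.1 hsum
    have hXY : X = Y := by
      apply h.inj
      funext o
      by_cases ho : o = eO k₀
      · rw [ho]; exact h0
      · exact hag o ho
    funext i
    have := congrFun hXY (eI i)
    simpa [hX, hY] using this

theorem var_of_fam {n : ℕ} [NeZero n] {I O : Type} [DecidableEq I]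
    {F : (I → Fin n) → O → Fin n} (h : Fam I O F)
    {m : ℕ} (eI : Fin m ≃ I) (eO : Fin m ≃ O) :
    IsVariationalSet m n m (fun k x => F (fun i => x (eI.symm i)) (eO k)) := by
  refine ⟨?_, ?_⟩
  · intro k i x
    simp only [upd_comp eI]
    exact h.line _ _ _
  · intro e he
    rw [← Finite.injective_iff_bijective]
    intro x y hxy
    have hs : Surjective e := Finite.surjective_of_injective he
    set X : I → Fin n := fun i => x (eI.symm i) with hX
    set Y : I → Fin n := fun i => y (eI.symm i) with hY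
    have hXY : X = Y := by
      apply h.inj
      funext o
      obtain ⟨i, hi⟩ := hs (eO.symm o)
      have := congrFun hxy i
      simpa [hi] using this
    funext i
    have := congrFun hXY (eI i)
    simpa [hX, hY] using this

/-- raising one coordinate by one -/
def raise {m n : ℕ} [NeZero n] (j : Fin m) : Equiv.Perm (Fin m → Fin n) where
  toFun x := update x j (x j + 1)
  invFun x := update x j (x j - 1)
  left_inv x := by
    simp
  right_inv x := by
    simp

theorem cyc_of_shift {n : ℕ} [NeZero n] (hn : 1 < n) {I O : Type} [DecidableEq I]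
    {F : (I → Fin n) → O → Fin n} {i₀ : I} (hs : Shift F i₀)
    {m k : ℕ} (eI : Fin m ≃ I) (eO : Fin k → O)
    (h : IsVariationalSet m n k (fun k x => F (fun i => x (eI.symm i)) (eO k))) :
    IsCyclicSet m n k (fun k x => F (fun i => x (eI.symm i)) (eO k)) := by
  refine ⟨h, raise (eI.symm i₀), ?_⟩
  intro i x
  have e : (fun j => (raise (eI.symm i₀) x : Fin m → Fin n) (eI.symm j)) =
      update (fun j => x (eI.symm j)) i₀ ((fun j => x (eI.symm j)) i₀ + 1) := by
    have := upd_comp eI x (eI.symm i₀) (x (eI.symm i₀) + 1)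
    rw [eI.apply_symm_apply] at this
    exact this
  show ((F (fun j => (raise (eI.symm i₀) x : Fin m → Fin n) (eI.symm j)) (eO i) : Fin n) : ℕ) = _
  rw [e, hs, Fin.val_add]
  have h1 : ((1 : Fin n) : ℕ) = 1 % n := Fin.val_one' n
  rw [h1, Nat.mod_eq_of_lt hn]

/-! ### the two existence results -/

/-- for every odd `m ≥ 5` there is a cyclic variational set of `m + 1` cubes of order six -/
theorem exists_cyc_odd {m : ℕ} (hm : 5 ≤ m) (hodd : Odd m) :
    ∃ C : Fin (m + 1) → (Fin m → Fin 6) → Fin 6, IsCyclicSet m 6 (m + 1) C := by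
  obtain ⟨k, rfl⟩ := hodd
  obtain ⟨r, rfl⟩ : ∃ r, k = r + 2 := ⟨k - 2, by omega⟩
  obtain ⟨I, O, _, _, _, _, F, s, a, b, c, i₀, h, hs, -, -, -, -, -, hI, hO⟩ :=
    exists_good_shift isTriple_sq r
  have eI : Fin (2 * (r + 2) + 1) ≃ I :=
    (Fintype.equivFinOfCardEq (by rw [hI]; ring)).symm
  have eO : Fin (2 * (r + 2) + 1 + 1) ≃ O :=
    (Fintype.equivFinOfCardEq (by rw [hO]; ring)).symm
  exact ⟨_, cyc_of_shift (by norm_num) hs eI eO (var_of_good h eI eO)⟩

/-- for every even `m ≥ 4` there is a cyclic variational set of `m` cubes of order six -/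
theorem exists_cyc_even {m : ℕ} (hm : 4 ≤ m) (heven : Even m) :
    ∃ C : Fin m → (Fin m → Fin 6) → Fin 6, IsCyclicSet m 6 m C := by
  obtain ⟨k, rfl⟩ := heven.exists_two_nsmul
  obtain ⟨r, rfl⟩ : ∃ r, k = r + 2 := ⟨k - 2, by simp only [smul_eq_mul] at hm; omega⟩
  obtain ⟨I, O, _, _, _, _, F, c, i₀, h, hs, hI, hO⟩ := exists_fam_shift isTriple_sq isQuad_K r
  have eI : Fin (2 • (r + 2)) ≃ I :=
    (Fintype.equivFinOfCardEq (by rw [hI]; simp only [smul_eq_mul]; ring)).symm
  have eO : Fin (2 • (r + 2)) ≃ O :=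
    (Fintype.equivFinOfCardEq (by rw [hO]; simp only [smul_eq_mul]; ring)).symm
  exact ⟨_, cyc_of_shift (by norm_num) hs eI eO (var_of_fam h eI eO)⟩

/-! ### the obstruction for cyclic sets -/

theorem cyc_mono {m n k l : ℕ} (hl : l ≤ k) {C : Fin k → (Fin m → Fin n) → Fin n}
    (h : IsCyclicSet m n k C) : IsCyclicSet m n l (fun i => C (Fin.castLE hl i)) := by
  obtain ⟨h, g, hg⟩ := h
  exact ⟨⟨fun i => h.1 _, fun e he => h.2 (fun i => Fin.castLE hl (e i))
    ((Fin.castLE_injective hl).comp he)⟩, g, fun i x => hg _ x⟩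

theorem card_even_symbols {n : ℕ} (hn : n % 4 = 2) :
    2 * (Finset.univ.filter fun s : Fin n => (s : ℕ) % 2 = 0).card = n := by
  obtain ⟨k, rfl⟩ : ∃ k, n = 2 * k := ⟨n / 2, by omega⟩
  have : (Finset.univ.filter fun s : Fin (2 * k) => (s : ℕ) % 2 = 0).card = k := by
    have h1 : (Finset.univ.filter fun s : Fin (2 * k) => (s : ℕ) % 2 = 0).card =
        (Finset.univ : Finset (Fin k)).card := by
      symm
      refine Finset.card_bij (fun (i : Fin k) _ => (⟨2 * i, by have := i.2; omega⟩ : Fin (2 * k)))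
        ?_ ?_ ?_
      · intro i _
        simp
      · intro i _ j _ hij
        have := congrArg Fin.val hij
        simp only at this
        exact Fin.ext (by omega)
      · intro s hs
        have hs' : (s : ℕ) % 2 = 0 := by simpa using hs
        have := s.2
        exact ⟨⟨(s : ℕ) / 2, by omega⟩, Finset.mem_univ _, Fin.ext (by simp only; omega)⟩
    rw [h1]; simp
  rw [this]

/-- **Obstruction.**  For `m` even and `n ≡ 2 mod 4` a cyclic variational set has at most `m`
cubes. -/
theorem cyc_le {m n k : ℕ} (hm : Even m) (hn : n % 4 = 2) {C : Fin k → (Fin m → Fin n) → Fin n}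
    (h : IsCyclicSet m n k C) : k ≤ m := by
  by_contra hk
  have hl : m + 1 ≤ k := by omega
  obtain ⟨h', g, hg⟩ := cyc_mono hl h
  refine no_flip hm hn h' (fun _ => Finset.univ.filter fun s : Fin n => (s : ℕ) % 2 = 0)
    (fun _ => card_even_symbols hn) g ?_
  intro i x
  have h1 : (C (Fin.castLE hl i) (g x) : ℕ) = ((C (Fin.castLE hl i) x : ℕ) + 1) % n := hg i x
  simp only [Finset.mem_filter, Finset.mem_univ, true_and]
  have h2 := (C (Fin.castLE hl i) x).2
  rcases Nat.lt_or_ge ((C (Fin.castLE hl i) x : ℕ) + 1) n with h3 | h3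
  · rw [Nat.mod_eq_of_lt h3] at h1
    omega
  · have h4 : (C (Fin.castLE hl i) x : ℕ) + 1 = n := by omega
    rw [h4, Nat.mod_self] at h1
    omega

end Pool.Agent.TH7.Cyc
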